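import Pool.Agent.Lib.MP_2eed13_lc.LCA.Base

/-!
# SWEEP: sweeping machines are simulated by linear cellular arrays

A state of a cell is `none` (initial) or `some (d, r, l)`: datum `d`, rightgoing signal `r`,
leftgoing signal `l`. One round of the sweeping machine takes `2 n - 1` steps of the array.
-/

set_option autoImplicit false

namespace Pool.Agent.Lib.MP_2eed13_lc.LCA.H3

variable {M : Sweep}

/-- States of the array. -/
abbrev St (M : Sweep) : Type := Option (M.D × Option M.S × Option M.S)

/-- The datum of a cell. -/
def dat (M : Sweep) : St M → M.D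
  | none => M.d0
  | some q => q.1

/-- The rightgoing signal of a cell. -/
def rsig (M : Sweep) : St M → Option M.S
  | none => none
  | some q => q.2.1

/-- The leftgoing signal of a cell. -/
def lsig (M : Sweep) : St M → Option M.S
  | none => none
  | some q => q.2.2

/-- The leftgoing signal of the first cell (the initial state counts as signal `s0`). -/
def start (M : Sweep) : St M → Option M.S
  | none => some M.s0
  | some q => q.2.2

/-- The signal that enters a cell from the left. -/
def inc (M : Sweep) (l : Option (St M)) (q : St M) : Option M.S :=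
  match l with
  | none => (start M q).map M.turn
  | some l' => rsig M l'

/-- The local rule. -/
def dl (M : Sweep) (l : Option (St M)) (q : St M) (r : Option (St M)) : St M :=
  match inc M l q with
  | some a =>
    match r with
    | none => some ((M.pass a (dat M q)).2, none, some (M.pass a (dat M q)).1)
    | some _ => some ((M.pass a (dat M q)).2, some (M.pass a (dat M q)).1, none)
  | none => some (dat M q, none, r.bind (lsig M))

/-- The configuration with data `d` and signals `R`, `L`. -/
def conf (M : Sweep) (n : ℕ) (d : ℕ → M.D) (R L : ℕ → Option M.S) (i : ℕ) : Option (St M) :=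
  if 1 ≤ i ∧ i ≤ n then some (some (d (i - 1), R i, L i)) else none

theorem conf_step (n : ℕ) (d : ℕ → M.D) (R L : ℕ → Option M.S) (i : ℕ) (h1 : 1 ≤ i)
    (h2 : i ≤ n) :
    aStep (dl M) (conf M n d R L) i =
      some (dl M (if i = 1 then none else some (some (d (i - 1 - 1), R (i - 1), L (i - 1))))
        (some (d (i - 1), R i, L i))
        (if i = n then none else some (some (d i, R (i + 1), L (i + 1))))) := by
  have hm : conf M n d R L i = some (some (d (i - 1), R i, L i)) := by
    unfold conf
    rw [if_pos ⟨h1, h2⟩]
  have hl : conf M n d R L (i - 1) =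
      (if i = 1 then none else some (some (d (i - 1 - 1), R (i - 1), L (i - 1)))) := by
    unfold conf
    by_cases h : i = 1
    · rw [if_pos h, if_neg (by omega)]
    · rw [if_neg h, if_pos ⟨by omega, by omega⟩]
  have hr : conf M n d R L (i + 1) =
      (if i = n then none else some (some (d i, R (i + 1), L (i + 1)))) := by
    unfold conf
    by_cases h : i = n
    · rw [if_pos h, if_neg (by omega)]
    · rw [if_neg h, if_pos ⟨by omega, by omega⟩, Nat.add_sub_cancel]
  unfold aStep
  rw [hm, hl, hr]
  rfl

theorem conf_step_out (n : ℕ) (d : ℕ → M.D) (R L : ℕ → Option M.S) (i : ℕ)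
    (h : ¬ (1 ≤ i ∧ i ≤ n)) : aStep (dl M) (conf M n d R L) i = none := by
  unfold aStep conf
  rw [if_neg h]
  rfl

/-- A single signal at cell `k`. -/
def one (M : Sweep) (k : ℕ) (s : M.S) : ℕ → Option M.S := fun i => if i = k then some s else none

/-- No signal. -/
def no (M : Sweep) : ℕ → Option M.S := fun _ => none

theorem one_self (k : ℕ) (s : M.S) : one M k s k = some s := by simp [one]

theorem one_ne {k i : ℕ} (s : M.S) (h : i ≠ k) : one M k s i = none := by simp [one, h]

/-- The general step: a signal `a` enters cell `k + 1`. -/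
theorem step_enter (n k : ℕ) (d : ℕ → M.D) (a : M.S) (R L : ℕ → Option M.S)
    (hin : ∀ i, 1 ≤ i → i ≤ n →
      inc M (if i = 1 then none else some (some (d (i - 1 - 1), R (i - 1), L (i - 1))))
        (some (d (i - 1), R i, L i)) = if i = k + 1 then some a else none)
    (hl : ∀ i, 1 ≤ i → i + 1 ≤ n → i ≠ k + 1 → L (i + 1) = none) :
    aStep (dl M) (conf M n d R L) =
      conf M n (Function.update d k (M.pass a (d k)).2)
        (if k + 1 = n then no M else one M (k + 1) (M.pass a (d k)).1)
        (if k + 1 = n then one M (k + 1) (M.pass a (d k)).1 else no M) := by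
  funext i
  by_cases hi : 1 ≤ i ∧ i ≤ n
  · rw [conf_step n d R L i hi.1 hi.2]
    unfold dl
    rw [hin i hi.1 hi.2]
    unfold conf
    rw [if_pos hi]
    by_cases hik : i = k + 1
    · subst hik
      rw [if_pos rfl]
      by_cases hkn : k + 1 = n
      · rw [if_pos hkn, if_pos hkn, if_pos hkn]
        simp [dat, no, one_self]
      · rw [if_neg hkn, if_neg hkn, if_neg hkn]
        simp [dat, no, one_self]
    · rw [if_neg hik]
      have hne : i - 1 ≠ k := by omega
      have e1 : (if k + 1 = n then no M else one M (k + 1) (M.pass a (d k)).1) i = none := by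
        split_ifs
        · rfl
        · exact one_ne _ hik
      have e2 : (if k + 1 = n then one M (k + 1) (M.pass a (d k)).1 else no M) i = none := by
        split_ifs
        · exact one_ne _ hik
        · rfl
      rw [e1, e2, Function.update_of_ne hne]
      by_cases hin' : i = n
      · rw [if_pos hin']
        simp [dat]
      · rw [if_neg hin']
        simp [dat, lsig, hl i hi.1 (by omega) hik]
  · rw [conf_step_out n d R L i hi]
    unfold conf
    rw [if_neg hi]

/-- Start of a round. -/
theorem step_start (n : ℕ) (d : ℕ → M.D) (s : M.S) (hn : 1 ≤ n) :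
    aStep (dl M) (conf M n d (no M) (one M 1 s)) =
      conf M n (Function.update d 0 (M.pass (M.turn s) (d 0)).2)
        (if 0 + 1 = n then no M else one M (0 + 1) (M.pass (M.turn s) (d 0)).1)
        (if 0 + 1 = n then one M (0 + 1) (M.pass (M.turn s) (d 0)).1 else no M) := by
  apply step_enter n 0 d (M.turn s)
  · intro i h1 h2
    by_cases h : i = 1
    · subst h
      simp [inc, start, one_self]
    · rw [if_neg h, if_neg (by omega)]
      simp [inc, rsig, no]
  · intro i h1 h2 h3
    exact one_ne _ (by omega)

/-- A rightgoing signal moves. -/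
theorem step_right (n k : ℕ) (d : ℕ → M.D) (a : M.S) (hk : 1 ≤ k) (hkn : k < n) :
    aStep (dl M) (conf M n d (one M k a) (no M)) =
      conf M n (Function.update d k (M.pass a (d k)).2)
        (if k + 1 = n then no M else one M (k + 1) (M.pass a (d k)).1)
        (if k + 1 = n then one M (k + 1) (M.pass a (d k)).1 else no M) := by
  apply step_enter n k d a
  · intro i h1 h2
    by_cases h : i = 1
    · subst h
      rw [if_pos rfl, if_neg (by omega)]
      simp [inc, start, no]
    · rw [if_neg h]
      by_cases hik : i = k + 1
      · subst hik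
        rw [if_pos rfl]
        simp [inc, rsig, one_self]
      · rw [if_neg hik]
        simp only [inc, rsig]
        exact one_ne _ (by omega)
  · intro i h1 h2 h3
    rfl

/-- A leftgoing signal moves. -/
theorem step_left (n k : ℕ) (d : ℕ → M.D) (a : M.S) (hk : 1 ≤ k) (hkn : k + 1 ≤ n) :
    aStep (dl M) (conf M n d (no M) (one M (k + 1) a)) = conf M n d (no M) (one M k a) := by
  funext i
  by_cases hi : 1 ≤ i ∧ i ≤ n
  · rw [conf_step n d _ _ i hi.1 hi.2]
    have hin : inc M (if i = 1 then none else
        some (some (d (i - 1 - 1), no M (i - 1), one M (k + 1) a (i - 1))))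
        (some (d (i - 1), no M i, one M (k + 1) a i)) = none := by
      by_cases h : i = 1
      · subst h
        simp only [if_pos, inc, start]
        rw [one_ne _ (by omega)]
        rfl
      · rw [if_neg h]
        rfl
    unfold dl
    rw [hin]
    unfold conf
    rw [if_pos hi]
    by_cases hin' : i = n
    · rw [if_pos hin', one_ne (k := k) (i := i) a (by omega)]
      simp [dat, no]
    · rw [if_neg hin']
      by_cases hik : i = k
      · subst hik
        simp [dat, lsig, one_self, no]
      · rw [one_ne (i := i) _ hik]
        simp [dat, lsig, no, one_ne (k := k + 1) (i := i + 1) a (by omega)]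
  · rw [conf_step_out n d _ _ i hi]
    unfold conf
    rw [if_neg hi]

/-- The data after the first `k` data cells of a round have been treated. -/
def dd (M : Sweep) (s : M.S) (d : ℕ → M.D) (k : ℕ) : ℕ → M.D :=
  fun j => if j < k then (M.pass (M.sig s d j) (d j)).2 else d j

theorem dd_succ (s : M.S) (d : ℕ → M.D) (k : ℕ) :
    Function.update (dd M s d k) k (M.pass (M.sig s d k) (dd M s d k k)).2 = dd M s d (k + 1) := by
  have hk : dd M s d k k = d k := by simp [dd]
  rw [hk]
  funext j
  by_cases hj : j = k
  · subst hj
    simp [dd]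
  · rw [Function.update_of_ne hj]
    unfold dd
    by_cases h : j < k
    · rw [if_pos h, if_pos (by omega)]
    · rw [if_neg h, if_neg (by omega)]

theorem dd_zero (s : M.S) (d : ℕ → M.D) : dd M s d 0 = d := by
  funext j
  simp [dd]

/-- The first half of a round. -/
theorem half (n : ℕ) (s : M.S) (d : ℕ → M.D) (hn : 1 ≤ n) (k : ℕ) (hk : k + 1 ≤ n) :
    (aStep (dl M))^[k + 1] (conf M n d (no M) (one M 1 s)) =
      conf M n (dd M s d (k + 1))
        (if k + 1 = n then no M else one M (k + 1) (M.sig s d (k + 1)))
        (if k + 1 = n then one M (k + 1) (M.sig s d (k + 1)) else no M) := by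
  induction k with
  | zero =>
    rw [Function.iterate_succ_apply', Function.iterate_zero, id, step_start n d s hn]
    rw [← dd_succ s d 0, dd_zero]
    rfl
  | succ k ih =>
    rw [Function.iterate_succ_apply', ih (by omega), if_neg (by omega), if_neg (by omega),
      step_right n (k + 1) _ _ (by omega) (by omega), ← dd_succ s d (k + 1)]
    have hk' : dd M s d (k + 1) (k + 1) = d (k + 1) := by simp [dd]
    rw [hk']
    rfl

/-- The second half of a round. -/
theorem half2 (n : ℕ) (d : ℕ → M.D) (a : M.S) (m : ℕ) (hm : m + 1 ≤ n) :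
    (aStep (dl M))^[m] (conf M n d (no M) (one M n a)) = conf M n d (no M) (one M (n - m) a) := by
  induction m with
  | zero => simp
  | succ m ih =>
    rw [Function.iterate_succ_apply', ih (by omega)]
    have h := step_left n (n - (m + 1)) d a (by omega) (by omega)
    have e : n - (m + 1) + 1 = n - m := by omega
    rw [e] at h
    exact h

/-- The configuration at the beginning of a round. -/
def base (M : Sweep) (n : ℕ) (x : M.S × (ℕ → M.D)) : ℕ → Option (St M) :=
  conf M n x.2 (no M) (one M 1 x.1)

theorem full_half (n : ℕ) (x : M.S × (ℕ → M.D)) (hn : 1 ≤ n) :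
    (aStep (dl M))^[n] (base M n x) =
      conf M n (M.round n x).2 (no M) (one M n (M.round n x).1) := by
  obtain ⟨k, rfl⟩ : ∃ k, n = k + 1 := ⟨n - 1, by omega⟩
  have h := half (k + 1) x.1 x.2 hn k le_rfl
  unfold base
  rw [h, if_pos rfl, if_pos rfl]
  rfl

theorem round_full (n : ℕ) (x : M.S × (ℕ → M.D)) (hn : 1 ≤ n) :
    (aStep (dl M))^[2 * n - 1] (base M n x) = base M n (M.round n x) := by
  have e : 2 * n - 1 = (n - 1) + n := by omega
  rw [e, Function.iterate_add_apply, full_half n x hn, half2 n _ _ (n - 1) (by omega)]
  have e2 : n - (n - 1) = 1 := by omega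
  rw [e2]
  rfl

theorem rounds (n : ℕ) (x : M.S × (ℕ → M.D)) (hn : 1 ≤ n) (r : ℕ) :
    (aStep (dl M))^[(2 * n - 1) * r] (base M n x) = base M n ((M.round n)^[r] x) := by
  induction r with
  | zero => simp
  | succ r ih =>
    rw [Nat.mul_succ, Nat.add_comm, Function.iterate_add_apply, ih, round_full n _ hn,
      Function.iterate_succ_apply']

/-- Inside a round the first cell has no leftgoing signal. -/
theorem inside (n : ℕ) (x : M.S × (ℕ → M.D)) (hn : 1 ≤ n) (τ : ℕ) (h1 : 1 ≤ τ)
    (h2 : τ < 2 * n - 1) (q : St M) (hq : (aStep (dl M))^[τ] (base M n x) 1 = some q) :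
    ∃ d r, q = some (d, r, none) := by
  by_cases h : τ < n
  · obtain ⟨k, rfl⟩ : ∃ k, τ = k + 1 := ⟨τ - 1, by omega⟩
    unfold base at hq
    rw [half n x.1 x.2 hn k (by omega), if_neg (by omega), if_neg (by omega)] at hq
    unfold conf at hq
    rw [if_pos ⟨le_rfl, hn⟩] at hq
    exact ⟨_, _, (Option.some.inj hq).symm⟩
  · have e : τ = (τ - n) + n := by omega
    rw [e, Function.iterate_add_apply, full_half n x hn, half2 n _ _ (τ - n) (by omega)] at hq
    unfold conf at hq
    rw [if_pos ⟨le_rfl, hn⟩, one_ne _ (by omega)] at hq
    exact ⟨_, _, (Option.some.inj hq).symm⟩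

/-- The first step does not distinguish the initial configuration from the beginning of a round. -/
theorem init_step (n : ℕ) (hn : 1 ≤ n) :
    aStep (dl M) (aInit (none : St M) n) = aStep (dl M) (base M n (M.s0, fun _ => M.d0)) := by
  funext i
  unfold base
  by_cases hi : 1 ≤ i ∧ i ≤ n
  · rw [conf_step n _ _ _ i hi.1 hi.2]
    unfold aStep aInit
    rw [if_pos hi]
    simp only [Option.map_some]
    by_cases h1 : i = 1
    · subst h1
      by_cases hin : 1 = n
      · subst hin
        simp [dl, inc, start, dat, one_self]
      · rw [if_pos rfl, if_neg hin, if_neg (by omega), if_pos ⟨by omega, by omega⟩]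
        simp [dl, inc, start, dat, one_self]
    · rw [if_neg h1, if_pos ⟨by omega, by omega⟩]
      by_cases hin : i = n
      · rw [if_pos hin, if_neg (by omega)]
        simp [dl, inc, rsig, dat, no]
      · rw [if_neg hin, if_pos ⟨by omega, by omega⟩]
        simp [dl, inc, rsig, dat, no, lsig, one_ne (k := 1) (i := i + 1) M.s0 (by omega)]
  · rw [conf_step_out n _ _ _ i hi]
    unfold aStep aInit
    rw [if_neg hi]
    rfl

/-- The accepting states. -/
def acc (M : Sweep) (A : Set M.S) : Set (St M) := {q | ∃ a ∈ A, start M q = some a}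

theorem sweep : SweepStatement := by
  intro M A
  have := M.finS
  have := M.finD
  refine ⟨St M, inferInstance, none, dl M, acc M A, ?_⟩
  intro n hn
  have hrun : ∀ t, 1 ≤ t → (aStep (dl M))^[t] (aInit (none : St M) n) =
      (aStep (dl M))^[t] (base M n (M.s0, fun _ => M.d0)) := by
    intro t ht
    obtain ⟨k, rfl⟩ : ∃ k, t = k + 1 := ⟨t - 1, by omega⟩
    rw [Function.iterate_succ_apply, Function.iterate_succ_apply, init_step n hn]
  constructor
  · rintro ⟨r, hr⟩
    refine ⟨(2 * n - 1) * r, ?_⟩
    rcases Nat.eq_zero_or_pos r with rfl | hr0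
    · refine ⟨none, ⟨M.s0, hr, rfl⟩, ?_⟩
      simp [aInit, hn]
    · refine ⟨some ((((M.round n)^[r]) (M.s0, fun _ => M.d0)).2 0, none,
        some (((M.round n)^[r]) (M.s0, fun _ => M.d0)).1), ⟨_, hr, rfl⟩, ?_⟩
      rw [hrun _ (Nat.mul_pos (by omega) hr0), rounds n _ hn r]
      unfold base conf
      rw [if_pos ⟨le_rfl, hn⟩, one_self]
      rfl
  · rintro ⟨t, q, ⟨a, ha, hqa⟩, hq⟩
    rcases Nat.eq_zero_or_pos t with rfl | ht
    · rw [Function.iterate_zero, id] at hq
      unfold aInit at hq
      rw [if_pos ⟨le_rfl, hn⟩] at hq
      have hq' : q = none := (Option.some.inj hq).symm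
      subst hq'
      refine ⟨0, ?_⟩
      have : a = M.s0 := (Option.some.inj hqa).symm
      rw [this] at ha
      exact ha
    · rw [hrun t ht] at hq
      have hpos : 0 < 2 * n - 1 := by omega
      have hdiv := Nat.div_add_mod t (2 * n - 1)
      have hlt := Nat.mod_lt t hpos
      have e : t = t % (2 * n - 1) + (2 * n - 1) * (t / (2 * n - 1)) := by omega
      rw [e, Function.iterate_add_apply, rounds n _ hn] at hq
      rcases Nat.eq_zero_or_pos (t % (2 * n - 1)) with h0 | h0
      · rw [h0, Function.iterate_zero, id] at hq
        unfold base conf at hq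
        rw [if_pos ⟨le_rfl, hn⟩, one_self] at hq
        have hq' := (Option.some.inj hq).symm
        subst hq'
        refine ⟨t / (2 * n - 1), ?_⟩
        have : a = ((M.round n)^[t / (2 * n - 1)] (M.s0, fun _ => M.d0)).1 :=
          (Option.some.inj hqa).symm
        rw [this] at ha
        exact ha
      · obtain ⟨d, r, rfl⟩ := inside n _ hn _ h0 hlt q hq
        exact absurd hqa (by simp [start])

end Pool.Agent.Lib.MP_2eed13_lc.LCA.H3
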